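import Pool.Agent.Helper28.ND.Spec3
import Pool.Agent.Helper70.ND.FREG

/-!
# MP_0c2f33_an, part PST: the pulse (two subsolutions).
-/

namespace Pool.Agent.Helper45.ND.PST
open MeasureTheory Set Filter Topology
open scoped ENNReal NNReal
open Pool.Agent.Helper28.ND Pool.Agent.Helper70.ND.FREG

/-! ## Derivatives of `φ (p (x 0) + q (x 1))` -/

theorem hfd_coord (p : ℝ → ℝ) (p1 : ℝ) (i : Fin 2) (x : Fin 2 → ℝ) (h : HasDerivAt p p1 (x i)) :
    HasFDerivAt (fun y : Fin 2 → ℝ => p (y i))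
      (p1 • (ContinuousLinearMap.proj i : (Fin 2 → ℝ) →L[ℝ] ℝ)) x := by
  have h2 : HasFDerivAt (fun y : Fin 2 → ℝ => y i)
      (ContinuousLinearMap.proj i : (Fin 2 → ℝ) →L[ℝ] ℝ) x :=
    (ContinuousLinearMap.proj i : (Fin 2 → ℝ) →L[ℝ] ℝ).hasFDerivAt
  exact h.comp_hasFDerivAt x h2

theorem hfd_comp {φ p q : ℝ → ℝ} {φ1 p1 q1 : ℝ → ℝ} (hφ : ∀ y, HasDerivAt φ (φ1 y) y)
    (hp : ∀ y, HasDerivAt p (p1 y) y) (hq : ∀ y, HasDerivAt q (q1 y) y) (x : Fin 2 → ℝ) :
    HasFDerivAt (fun y : Fin 2 → ℝ => φ (p (y 0) + q (y 1)))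
      (φ1 (p (x 0) + q (x 1)) •
        (p1 (x 0) • (ContinuousLinearMap.proj 0 : (Fin 2 → ℝ) →L[ℝ] ℝ)
          + q1 (x 1) • (ContinuousLinearMap.proj 1 : (Fin 2 → ℝ) →L[ℝ] ℝ))) x := by
  have h1 := hfd_coord p (p1 (x 0)) 0 x (hp _)
  have h2 := hfd_coord q (q1 (x 1)) 1 x (hq _)
  exact (hφ (p (x 0) + q (x 1))).comp_hasFDerivAt x (h1.add h2)

theorem pd_comp {φ p q : ℝ → ℝ} {φ1 p1 q1 : ℝ → ℝ} (hφ : ∀ y, HasDerivAt φ (φ1 y) y)
    (hp : ∀ y, HasDerivAt p (p1 y) y) (hq : ∀ y, HasDerivAt q (q1 y) y) (x : Fin 2 → ℝ) :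
    pd 0 (fun y : Fin 2 → ℝ => φ (p (y 0) + q (y 1))) x = φ1 (p (x 0) + q (x 1)) * p1 (x 0) ∧
    pd 1 (fun y : Fin 2 → ℝ => φ (p (y 0) + q (y 1))) x = φ1 (p (x 0) + q (x 1)) * q1 (x 1) := by
  have h := (hfd_comp hφ hp hq x).fderiv
  unfold pd
  rw [h]
  constructor
  · simp
  · simp

theorem lap_comp {φ p q : ℝ → ℝ} {φ1 p1 q1 φ2 p2 q2 : ℝ → ℝ} (hφ : ∀ y, HasDerivAt φ (φ1 y) y)
    (hp : ∀ y, HasDerivAt p (p1 y) y) (hq : ∀ y, HasDerivAt q (q1 y) y)
    (hφ2 : ∀ y, HasDerivAt φ1 (φ2 y) y)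
    (hp2 : ∀ y, HasDerivAt p1 (p2 y) y) (hq2 : ∀ y, HasDerivAt q1 (q2 y) y) (x : Fin 2 → ℝ) :
    lap (fun y : Fin 2 → ℝ => φ (p (y 0) + q (y 1))) x
      = φ2 (p (x 0) + q (x 1)) * (p1 (x 0) ^ 2 + q1 (x 1) ^ 2)
        + φ1 (p (x 0) + q (x 1)) * (p2 (x 0) + q2 (x 1)) := by
  unfold lap
  rw [Fin.sum_univ_two]
  have e0 : pd 0 (fun y : Fin 2 → ℝ => φ (p (y 0) + q (y 1)))
      = fun y => φ1 (p (y 0) + q (y 1)) * p1 (y 0) := funext fun y => (pd_comp hφ hp hq y).1
  have e1 : pd 1 (fun y : Fin 2 → ℝ => φ (p (y 0) + q (y 1)))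
      = fun y => φ1 (p (y 0) + q (y 1)) * q1 (y 1) := funext fun y => (pd_comp hφ hp hq y).2
  rw [e0, e1]
  have h := hfd_comp hφ2 hp hq x
  have h0 := h.mul (hfd_coord p1 (p2 (x 0)) 0 x (hp2 _))
  have h1 := h.mul (hfd_coord q1 (q2 (x 1)) 1 x (hq2 _))
  unfold pd
  have g0 : fderiv ℝ (fun y : Fin 2 → ℝ => φ1 (p (y 0) + q (y 1)) * p1 (y 0)) x = _ := h0.fderiv
  have g1 : fderiv ℝ (fun y : Fin 2 → ℝ => φ1 (p (y 0) + q (y 1)) * q1 (y 1)) x = _ := h1.fderiv
  rw [g0, g1]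
  simp
  ring

/-! ## The quarter cell and the solution -/

theorem meas_Q4 : MeasurableSet Q4 := by
  have e : Q4 = ({x : Fin 2 → ℝ | 0 < x 0} ∩ {x | x 0 < 1 / 4}) ∩ ({x | 0 < x 1} ∩ {x | x 1 ≤ 1}) := by
    ext x
    simp only [Q4, Set.mem_ofPred_eq, Set.mem_inter_iff]
    tauto
  rw [e]
  refine ((measurableSet_lt measurable_const (measurable_pi_apply 0)).inter
    (measurableSet_lt (measurable_pi_apply 0) measurable_const)).inter
    ((measurableSet_lt measurable_const (measurable_pi_apply 1)).inter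
    (measurableSet_le (measurable_pi_apply 1) measurable_const))

theorem vol_Q4 : volume Q4 < ⊤ := by
  have h : Q4 ⊆ Set.pi Set.univ (fun _ : Fin 2 => Set.Icc (0 : ℝ) 1) := by
    intro x hx i _
    simp only [Q4, Set.mem_ofPred_eq] at hx
    fin_cases i
    · exact ⟨hx.1.le, by simp; linarith [hx.2.1]⟩
    · exact ⟨hx.2.2.1.le, hx.2.2.2⟩
  refine (measure_mono h).trans_lt ?_
  rw [volume_pi_pi]
  simp

theorem u_meas {T : ℝ} {b : ℝ → (Fin 2 → ℝ) → (Fin 2 → ℝ)} {f : ℝ → (Fin 2 → ℝ) → ℝ}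
    {u : ℝ → (Fin 2 → ℝ) → ℝ} {v : ℝ → (Fin 2 → ℝ) → (Fin 2 → ℝ)} (h : FSol 2 T b f u v) (t : ℝ) :
    Measurable (u t) ∧ ∃ B : ℝ, ∀ x, |u t x| ≤ B := by
  have hbP := Pool.Agent.Helper86.ND.KB.bmp_Phi (1 + T) _ (rf_bmp h)
  have e : u t = fun x => Phi (1 + T) (RF T b f v) (1 + T - t) x := funext fun x => h.eu t x
  constructor
  · rw [e]
    exact hbP.meas.comp (measurable_const.prodMk measurable_id)
  · obtain ⟨B, hB⟩ := hbP.bdd
    exact ⟨B, fun x => by rw [e]; exact hB _ _⟩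

/-- The integral against a bounded test function which depends continuously on a parameter. -/
theorem cont_par {w : (Fin 2 → ℝ) → ℝ} (hw : Measurable w) {B : ℝ} (hB : ∀ x, |w x| ≤ B)
    (S : ℝ → ℝ) (hS : Continuous S) (hS1 : ∀ y, |S y| ≤ 1) (c w0 : ℝ) (hw0 : 0 < w0) :
    ContinuousAt (fun w' : ℝ => ∫ x in Q4, w x * S ((x 0 - c) / w')) w0 := by
  have : IsFiniteMeasure (volume.restrict Q4) :=
    ⟨by rw [Measure.restrict_apply_univ]; exact vol_Q4⟩
  refine continuousAt_of_dominated (bound := fun _ => B) ?_ ?_ ?_ ?_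
  · refine Filter.Eventually.of_forall fun w' => Measurable.aestronglyMeasurable ?_
    exact hw.mul (hS.measurable.comp (by fun_prop))
  · refine Filter.Eventually.of_forall fun w' => Filter.Eventually.of_forall fun x => ?_
    rw [Real.norm_eq_abs, abs_mul]
    have hB0 : 0 ≤ B := (abs_nonneg _).trans (hB 0)
    calc |w x| * |S ((x 0 - c) / w')| ≤ B * 1 :=
          mul_le_mul (hB x) (hS1 _) (abs_nonneg _) hB0
      _ = B := mul_one B
  · exact integrable_const B
  · refine Filter.Eventually.of_forall fun x => ?_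
    refine ContinuousAt.mul continuousAt_const ?_
    refine hS.continuousAt.comp ?_
    exact ContinuousAt.div continuousAt_const continuousAt_id hw0.ne'

/-- Drop the source. -/
theorem sub_drop (hSUB : S_SUB) {T : ℝ} {b : ℝ → (Fin 2 → ℝ) → (Fin 2 → ℝ)}
    {f : ℝ → (Fin 2 → ℝ) → ℝ} {u : ℝ → (Fin 2 → ℝ) → ℝ} {v : ℝ → (Fin 2 → ℝ) → (Fin 2 → ℝ)}
    (h : Sit T b f u v) {s t : ℝ} {g : ℝ → (Fin 2 → ℝ) → ℝ} (hs : 0 ≤ s) (hst : s ≤ t)
    (htT : t ≤ T) (hg : T4L s t g) (hg0 : ∀ r x, 0 ≤ g r x)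
    (hL : ∀ r x, s < r → r < t → x ∈ Q4 →
      0 ≤ dt g r x + (∑ i, b r x i * pd i (g r) x) + lap (g r) x) :
    ∫ x in Q4, u s x * g s x ≤ ∫ x in Q4, u t x * g t x := by
  have h1 := (hSUB T b f u v h s t g hs hst htT hg).1 hL
  have h2 : 0 ≤ ∫ r in Ioc s t, ∫ x in Q4, f r x * g r x := by
    refine setIntegral_nonneg measurableSet_Ioc fun r _ => ?_
    refine setIntegral_nonneg meas_Q4 fun x hx => ?_
    exact mul_nonneg (h.fp r x hx.1.le hx.2.1.le) (hg0 r x)
  linarith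

/-! ## Part 2 -/

theorem part2_strict (hSUB : S_SUB) (hGP : S_GP) {T : ℝ} {b : ℝ → (Fin 2 → ℝ) → (Fin 2 → ℝ)}
    {f : ℝ → (Fin 2 → ℝ) → ℝ} {u : ℝ → (Fin 2 → ℝ) → ℝ} {v : ℝ → (Fin 2 → ℝ) → (Fin 2 → ℝ)}
    (h : Sit T b f u v) {s L l y0 w V : ℝ} (hs : 0 ≤ s) (hL : 0 < L) (hsL : s + L ≤ T)
    (hy : 0 < y0) (hw : 0 < w) (hV : 0 < V)
    (hb : ∀ r x, s < r → r < s + L → x ∈ Q4 → y0 ≤ x 0 → |b r x 0| ≤ V)
    (hl : y0 ≤ l - V * L) (hlw : l + w < 1 / 8) :
    Real.exp (-(12 * L / w ^ 2)) * ∫ x in Q4, u s x * Sg ((x 0 - l) / w)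
      ≤ ∫ x in Q4, u (s + L) x * Sg ((x 0 - (l - V * L)) / w) := by
  obtain ⟨-, hSg, -, -, ⟨hS0, hS1, hS01, hSd⟩, -⟩ := hGP
  -- the window
  obtain ⟨δ, hδ, hδ1, hδ2⟩ : ∃ δ : ℝ, 0 < δ ∧ V * δ ≤ y0 ∧ V * δ ≤ 1 / 8 - (l + w) := by
    refine ⟨min y0 (1 / 8 - (l + w)) / V, div_pos (lt_min hy (by linarith)) hV, ?_, ?_⟩
    · rw [mul_div_cancel₀ _ hV.ne']; exact min_le_left _ _
    · rw [mul_div_cancel₀ _ hV.ne']; exact min_le_right _ _
  set E : ℝ → ℝ := fun τ => Real.exp (-(12 * (s + L - τ) / w ^ 2)) with hE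
  set G : ℝ → (Fin 2 → ℝ) → ℝ := fun τ x => E τ * Sg ((x 0 - l + V * (τ - s)) / w) with hG
  set g : ℝ → (Fin 2 → ℝ) → ℝ := fun τ x =>
    if τ ∈ Ioo (s - δ) (s + L + δ) then G τ x else 0 with hg
  have hGs : ContDiff ℝ 2 (U G) := by
    have : U G = fun z : ℝ × (Fin 2 → ℝ) => Real.exp (-(12 * (s + L - z.1) / w ^ 2))
        * Sg ((z.2 0 - l + V * (z.1 - s)) / w) := rfl
    rw [this]
    refine ContDiff.mul (by fun_prop) (hSg.comp ?_)
    fun_prop
  have hSgd : Differentiable ℝ Sg := hSg.differentiable (by norm_num)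
  have hSg1 : ContDiff ℝ 1 (deriv Sg) := by
    have : ContDiff ℝ (1 + 1) Sg := by norm_num; exact hSg
    exact (contDiff_succ_iff_deriv.1 this).2.2
  have hSgd1 : Differentiable ℝ (deriv Sg) := hSg1.differentiable (by norm_num)
  have hE0 : ∀ τ, 0 < E τ := fun τ => Real.exp_pos _
  have hT4 : T4L s (s + L) g := by
    refine ⟨⟨δ, hδ, ?_⟩, ?_, ?_, ?_⟩
    · refine hGs.contDiffOn.congr fun z hz => ?_
      show g z.1 z.2 = G z.1 z.2
      rw [hg]
      exact if_pos hz.1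
    · intro t x
      simp only [hg, hG]
      rfl
    · intro t x hx
      simp only [hg]
      split_ifs with ht
      · simp only [hG]
        rw [hS0 _ ?_, mul_zero]
        apply div_nonpos_of_nonpos_of_nonneg _ hw.le
        rw [hx]
        have : V * (t - s) ≤ V * (L + δ) := mul_le_mul_of_nonneg_left (by linarith [ht.2]) hV.le
        nlinarith
      · rfl
    · intro t x hx
      simp only [hg]
      split_ifs with ht
      · simp only [hG]
        have h3 : V * (-δ) ≤ V * (t - s) := mul_le_mul_of_nonneg_left (by linarith [ht.1]) hV.le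
        have e1 : ((![1 / 8, x 1] : Fin 2 → ℝ)) 0 = 1 / 8 := rfl
        rw [hS1 _ ?_, hS1 _ ?_]
        · rw [e1, le_div_iff₀ hw]
          linarith
        · rw [le_div_iff₀ hw]
          linarith
      · rfl
  have key := sub_drop hSUB h hs (by linarith : s ≤ s + L) hsL hT4 (fun r x => by
    simp only [hg]
    split_ifs
    · exact mul_nonneg (hE0 _).le (hS01 _).1
    · exact le_rfl) ?_
  · have e1 : ∀ x, g s x = Real.exp (-(12 * L / w ^ 2)) * Sg ((x 0 - l) / w) := by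
      intro x
      simp only [hg]
      rw [if_pos ⟨by linarith, by linarith⟩]
      simp only [hG, hE]
      congr 2
      · ring_nf
      · ring_nf
    have e2 : ∀ x, g (s + L) x = Sg ((x 0 - (l - V * L)) / w) := by
      intro x
      simp only [hg]
      rw [if_pos ⟨by linarith, by linarith⟩]
      simp only [hG, hE]
      have : (s + L - (s + L)) = 0 := by ring
      rw [this]
      simp only [mul_zero, zero_div, neg_zero, Real.exp_zero, one_mul]
      congr 2
      ring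
    simp only [e1, e2] at key
    refine le_trans (le_of_eq ?_) key
    rw [← integral_const_mul]
    congr 1
    funext x
    ring
  · intro r x hr1 hr2 hx
    have hrI : r ∈ Ioo (s - δ) (s + L + δ) := ⟨by linarith, by linarith⟩
    set y : ℝ := (x 0 - l + V * (r - s)) / w with hy'
    have egr : g r = fun x => E r * Sg ((x 0 - l + V * (r - s)) / w) := by
      funext x
      simp only [hg]
      rw [if_pos hrI]
    -- time derivative
    have hdt : dt g r x = 12 / w ^ 2 * E r * Sg y + E r * (deriv Sg y * (V / w)) := by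
      unfold dt
      have hev : (fun τ => g τ x) =ᶠ[𝓝 r] fun τ => G τ x := by
        filter_upwards [Ioo_mem_nhds hrI.1 hrI.2] with τ hτ
        simp only [hg]
        rw [if_pos hτ]
      rw [hev.deriv_eq]
      have hE1 : HasDerivAt E (12 / w ^ 2 * E r) r := by
        have h2 : HasDerivAt (fun τ : ℝ => s + L - τ) (-1) r := (hasDerivAt_id' r).const_sub (s + L)
        have h3 : HasDerivAt (fun τ : ℝ => -(12 * (s + L - τ) / w ^ 2)) (-(12 * (-1) / w ^ 2)) r :=
          ((h2.const_mul 12).div_const (w ^ 2)).neg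
        have h4 : HasDerivAt E (Real.exp (-(12 * (s + L - r) / w ^ 2)) * (-(12 * (-1) / w ^ 2))) r :=
          h3.exp
        have e4 : 12 / w ^ 2 * E r
            = Real.exp (-(12 * (s + L - r) / w ^ 2)) * (-(12 * (-1) / w ^ 2)) := by
          simp only [hE]; ring
        rw [e4]
        exact h4
      have hI : HasDerivAt (fun τ : ℝ => (x 0 - l + V * (τ - s)) / w) (V * 1 / w) r := by
        have h2 : HasDerivAt (fun τ : ℝ => τ - s) 1 r := (hasDerivAt_id' r).sub_const s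
        exact ((h2.const_mul V).const_add (x 0 - l)).div_const w
      have hS : HasDerivAt (fun τ : ℝ => Sg ((x 0 - l + V * (τ - s)) / w))
          (deriv Sg y * (V * 1 / w)) r := by
        have hSy' : HasDerivAt Sg (deriv Sg y) ((fun τ : ℝ => (x 0 - l + V * (τ - s)) / w) r) :=
          (hSgd y).hasDerivAt
        exact hSy'.comp r hI
      have h6 : HasDerivAt (fun τ : ℝ => E τ * Sg ((x 0 - l + V * (τ - s)) / w))
          (12 / w ^ 2 * E r * Sg y + E r * (deriv Sg y * (V * 1 / w))) r := hE1.mul hS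
      rw [mul_one] at h6
      exact h6.deriv
    -- space derivatives
    have hφ : ∀ z, HasDerivAt (fun z => E r * Sg z) (E r * deriv Sg z) z := fun z =>
      ((hSgd z).hasDerivAt).const_mul _
    have hφ2 : ∀ z, HasDerivAt (fun z => E r * deriv Sg z) (E r * deriv (deriv Sg) z) z := fun z =>
      ((hSgd1 z).hasDerivAt).const_mul _
    have hp : ∀ z, HasDerivAt (fun z : ℝ => (z - l + V * (r - s)) / w) (1 / w) z := by
      intro z
      have h2 : HasDerivAt (fun z : ℝ => z - l) 1 z := (hasDerivAt_id' z).sub_const l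
      have := (h2.add_const (V * (r - s))).div_const w
      exact this
    have hp2 : ∀ z, HasDerivAt (fun _ : ℝ => 1 / w) 0 z := fun z => hasDerivAt_const z _
    have hq : ∀ z, HasDerivAt (fun _ : ℝ => (0 : ℝ)) 0 z := fun z => hasDerivAt_const z _
    have egr' : g r = fun y : Fin 2 → ℝ => (fun z => E r * Sg z)
        ((fun z : ℝ => (z - l + V * (r - s)) / w) (y 0) + (fun _ : ℝ => (0 : ℝ)) (y 1)) := by
      rw [egr]
      funext y
      simp
    have hpd := pd_comp hφ hp hq x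
    have hlap := lap_comp hφ hp hq hφ2 hp2 hq x
    rw [← egr'] at hpd hlap
    rw [hdt, Fin.sum_univ_two, hpd.1, hpd.2, hlap]
    simp only [add_zero]
    rw [← hy']
    have hEr := hE0 r
    have hSy := hS01 y
    have hdy := hSd y
    by_cases hc : y0 ≤ x 0
    · have hbx := hb r x hr1 hr2 hx hc
      have hbx' := (abs_le.1 hbx).1
      have h1 : 0 ≤ (V + b r x 0) * deriv Sg y / w :=
        div_nonneg (mul_nonneg (by linarith) hdy.1) hw.le
      have h2 : 0 ≤ (12 * Sg y + deriv (deriv Sg) y) / w ^ 2 :=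
        div_nonneg (by linarith [hdy.2]) (by positivity)
      have h3 : 0 ≤ E r * ((V + b r x 0) * deriv Sg y / w + (12 * Sg y + deriv (deriv Sg) y) / w ^ 2) :=
        mul_nonneg hEr.le (by linarith)
      convert h3 using 1
      field_simp
      ring
    · push Not at hc
      have hyneg : y < 0 := by
        rw [hy']
        apply div_neg_of_neg_of_pos _ hw
        have : V * (r - s) ≤ V * L := mul_le_mul_of_nonneg_left (by linarith) hV.le
        linarith
      have hd0 : deriv Sg y = 0 := by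
        have : Sg =ᶠ[𝓝 y] fun _ => 0 := by
          filter_upwards [Iio_mem_nhds hyneg] with z hz
          exact hS0 z (le_of_lt hz)
        rw [this.deriv_eq]
        simp
      have hS00 : Sg y = 0 := hS0 y hyneg.le
      have h2 : 0 ≤ deriv (deriv Sg) y := by
        have := hdy.2
        rw [hS00] at this
        linarith
      rw [hd0, hS00]
      have : 0 ≤ E r * deriv (deriv Sg) y * (1 / w) ^ 2 := by positivity
      simp
      have h5 : 0 ≤ E r * deriv (deriv Sg) y * (w ^ 2)⁻¹ := by positivity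
      linarith

theorem part2 (hSUB : S_SUB) (hGP : S_GP) {T : ℝ} {b : ℝ → (Fin 2 → ℝ) → (Fin 2 → ℝ)}
    {f : ℝ → (Fin 2 → ℝ) → ℝ} {u : ℝ → (Fin 2 → ℝ) → ℝ} {v : ℝ → (Fin 2 → ℝ) → (Fin 2 → ℝ)}
    (h : Sit T b f u v) {s L l y0 w V : ℝ} (hs : 0 ≤ s) (hL : 0 < L) (hsL : s + L ≤ T)
    (hy : 0 < y0) (hw : 0 < w) (hV : 0 < V)
    (hb : ∀ r x, s < r → r < s + L → x ∈ Q4 → y0 ≤ x 0 → |b r x 0| ≤ V)
    (hl : y0 ≤ l - V * L) (hlw : l + w ≤ 1 / 8) :
    Real.exp (-(12 * L / w ^ 2)) * ∫ x in Q4, u s x * Sg ((x 0 - l) / w)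
      ≤ ∫ x in Q4, u (s + L) x * Sg ((x 0 - (l - V * L)) / w) := by
  obtain ⟨hum, B, hB⟩ := u_meas h.sol (s + L)
  obtain ⟨hum', B', hB'⟩ := u_meas h.sol s
  have hSg := hGP.2.1
  have hSc : Continuous Sg := hSg.continuous
  have hS01 : ∀ y, |Sg y| ≤ 1 := by
    intro y
    have := hGP.2.2.2.2.1.2.2.1 y
    exact abs_le.2 ⟨by linarith [this.1], this.2⟩
  have c1 := cont_par hum' hB' Sg hSc hS01 l w hw
  have c2 := cont_par hum hB Sg hSc hS01 (l - V * L) w hw
  have c0 : ContinuousAt (fun w' : ℝ => Real.exp (-(12 * L / w' ^ 2))) w := by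
    refine Real.continuous_exp.continuousAt.comp ?_
    refine ContinuousAt.neg (ContinuousAt.div continuousAt_const ?_ (by positivity))
    exact (continuous_pow 2).continuousAt
  have c3 := c0.mul c1
  have t1 := c3.tendsto.mono_left (nhdsWithin_le_nhds : 𝓝[<] w ≤ 𝓝 w)
  have t2 := c2.tendsto.mono_left (nhdsWithin_le_nhds : 𝓝[<] w ≤ 𝓝 w)
  refine le_of_tendsto_of_tendsto t1 t2 ?_
  filter_upwards [Ioo_mem_nhdsLT hw] with w' hw'
  exact part2_strict hSUB hGP h hs hL hsL hy hw'.1 hV hb hl (by linarith [hw'.2])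

/-! ## Part 1 -/

theorem part1 (hSUB : S_SUB) (hGP : S_GP) {T : ℝ} {b : ℝ → (Fin 2 → ℝ) → (Fin 2 → ℝ)}
    {f : ℝ → (Fin 2 → ℝ) → ℝ} {u : ℝ → (Fin 2 → ℝ) → ℝ} {v : ℝ → (Fin 2 → ℝ) → (Fin 2 → ℝ)}
    (h : Sit T b f u v) {n : ℕ} {s L σ l A y0 V ρ : ℝ} (hn : 8 ≤ n) (hρ : ρ = 1 / (n : ℝ))
    (hs : 0 ≤ s) (hL : 0 < L) (hsL : s + L ≤ T) (hσ : 0 < σ) (hy : 0 < y0) (hV : 0 < V)
    (hb : ∀ r x, s < r → r < s + L → x ∈ Q4 → y0 ≤ x 0 → x 0 ≤ ρ / 2 →
      b r x 0 = V * Real.cos (2 * Real.pi * x 1 / ρ) ∧ b r x 1 = 0)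
    (hσV : σ ≤ V / 2) (hl : y0 ≤ l) (hA1 : A + aP ρ L V ≤ 1) :
    ∫ x in Q4, u s x * jj (psiA ρ σ l A x)
      ≤ ∫ x in Q4, u (s + L) x * jj (psiA ρ σ (l + (V / 2 - σ) * L) (A + aP ρ L V) x) := by
  obtain ⟨-, -, hjj, -, -, ⟨hj0, hj1, -, -⟩⟩ := hGP
  have hn0 : (8 : ℝ) ≤ n := by exact_mod_cast hn
  have hnp : (0 : ℝ) < n := by linarith
  have hρ0 : 0 < ρ := by rw [hρ]; positivity
  have hρ8 : ρ ≤ 1 / 8 := by
    rw [hρ]; exact one_div_le_one_div_of_le (by norm_num) hn0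
  set K : ℝ := 2 * (2 * Real.pi / ρ) ^ 2 + 8 / ρ ^ 2 + 4 * V / ρ with hK
  have hK0 : 0 < K := by positivity
  have haP : aP ρ L V = K * L := by
    unfold aP aW
    rw [hK]
    ring
  rw [haP] at hA1 ⊢
  -- the window
  obtain ⟨δ, hδ, hδ1, hδ2, hδ3⟩ :
      ∃ δ : ℝ, 0 < δ ∧ V * δ ≤ y0 ∧ K * δ ≤ σ * y0 / 2 ∧ K * δ ≤ 2 := by
    refine ⟨min (y0 / V) (min (σ * y0 / 2 / K) (2 / K)), ?_, ?_, ?_, ?_⟩
    · exact lt_min (by positivity) (lt_min (by positivity) (by positivity))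
    · calc V * _ ≤ V * (y0 / V) := mul_le_mul_of_nonneg_left (min_le_left _ _) hV.le
        _ = y0 := mul_div_cancel₀ _ hV.ne'
    · calc K * _ ≤ K * (σ * y0 / 2 / K) :=
            mul_le_mul_of_nonneg_left ((min_le_right _ _).trans (min_le_left _ _)) hK0.le
        _ = σ * y0 / 2 := mul_div_cancel₀ _ hK0.ne'
    · calc K * _ ≤ K * (2 / K) :=
            mul_le_mul_of_nonneg_left ((min_le_right _ _).trans (min_le_right _ _)) hK0.le
        _ = 2 := mul_div_cancel₀ _ hK0.ne'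
  set lt : ℝ → ℝ := fun τ => l + (V / 2 - σ) * (τ - s) with hlt
  set At : ℝ → ℝ := fun τ => A + K * (τ - s) with hAt
  set G : ℝ → (Fin 2 → ℝ) → ℝ := fun τ x => jj (psiA ρ σ (lt τ) (At τ) x) with hG
  set g : ℝ → (Fin 2 → ℝ) → ℝ := fun τ x =>
    if τ ∈ Ioo (s - δ) (s + L + δ) then G τ x else 0 with hg
  have hGs : ContDiff ℝ 2 (U G) := by
    have : U G = fun z : ℝ × (Fin 2 → ℝ) => jj (A + K * (z.1 - s)
        - Real.exp (-σ * (z.2 0 - (l + (V / 2 - σ) * (z.1 - s))))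
        - 2 * (1 - Real.cos (2 * Real.pi * z.2 1 / ρ)) - 4 * (z.2 0 / ρ) ^ 2) := rfl
    rw [this]
    refine hjj.comp ?_
    fun_prop
  have hjd : Differentiable ℝ jj := hjj.differentiable (by norm_num)
  have hj1c : ContDiff ℝ 1 (deriv jj) := by
    have : ContDiff ℝ (1 + 1) jj := by norm_num; exact hjj
    exact (contDiff_succ_iff_deriv.1 this).2.2
  have hjd1 : Differentiable ℝ (deriv jj) := hj1c.differentiable (by norm_num)
  have hcos : ∀ z : ℝ, 0 ≤ 2 * (1 - Real.cos z) := fun z => by linarith [Real.cos_le_one z]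
  have hT4 : T4L s (s + L) g := by
    refine ⟨⟨δ, hδ, ?_⟩, ?_, ?_, ?_⟩
    · refine hGs.contDiffOn.congr fun z hz => ?_
      show g z.1 z.2 = G z.1 z.2
      rw [hg]
      exact if_pos hz.1
    · intro t x
      simp only [hg, hG]
      have e1 : psiA ρ σ (lt t) (At t) ![x 0, x 1 + 1] = psiA ρ σ (lt t) (At t) x := by
        unfold psiA
        have e2 : ((![x 0, x 1 + 1] : Fin 2 → ℝ)) 0 = x 0 := rfl
        have e3 : ((![x 0, x 1 + 1] : Fin 2 → ℝ)) 1 = x 1 + 1 := rfl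
        rw [e2, e3]
        have e4 : 2 * Real.pi * (x 1 + 1) / ρ = 2 * Real.pi * x 1 / ρ + n * (2 * Real.pi) := by
          rw [hρ]
          field_simp
        rw [e4, Real.cos_add_nat_mul_two_pi]
      rw [e1]
    · intro t x hx
      simp only [hg]
      split_ifs with ht
      · simp only [hG]
        refine (hj0 _ ?_).1
        unfold psiA
        rw [hx]
        have h1 : (V / 2 - σ) * (-δ) ≤ (V / 2 - σ) * (t - s) :=
          mul_le_mul_of_nonneg_left (by linarith [ht.1]) (by linarith)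
        have h2 : y0 / 2 ≤ lt t := by
          simp only [hlt]
          nlinarith
        have h3 : At t ≤ 1 + σ * y0 / 2 := by
          simp only [hAt]
          have : K * (t - s) ≤ K * (L + δ) := mul_le_mul_of_nonneg_left (by linarith [ht.2]) hK0.le
          nlinarith
        have h4 : 1 + σ * lt t ≤ Real.exp (-σ * (0 - lt t)) := by
          have := Real.add_one_le_exp (-σ * (0 - lt t))
          nlinarith
        have h5 : σ * (y0 / 2) ≤ σ * lt t := mul_le_mul_of_nonneg_left h2 hσ.le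
        have h6 := hcos (2 * Real.pi * x 1 / ρ)
        have h7 : (4 : ℝ) * (0 / ρ) ^ 2 = 0 := by simp
        rw [h7]
        linarith
      · rfl
    · intro t x hx
      have flat0 : ∀ (y : Fin 2 → ℝ), 1 / 8 ≤ y 0 → t ∈ Ioo (s - δ) (s + L + δ) → G t y = 0 := by
        intro y hy' ht
        simp only [hG]
        refine (hj0 _ ?_).1
        unfold psiA
        have h3 : At t ≤ 3 := by
          simp only [hAt]
          have : K * (t - s) ≤ K * (L + δ) := mul_le_mul_of_nonneg_left (by linarith [ht.2]) hK0.le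
          nlinarith
        have h4 := (Real.exp_pos (-σ * (y 0 - lt t))).le
        have h6 := hcos (2 * Real.pi * y 1 / ρ)
        have h7 : 1 ≤ y 0 / ρ := by
          rw [le_div_iff₀ hρ0]; linarith
        have h8 : 1 ≤ (y 0 / ρ) ^ 2 := one_le_pow₀ h7
        linarith
      simp only [hg]
      split_ifs with ht
      · rw [flat0 x hx ht, flat0 _ (by simp) ht]
      · rfl
  have key := sub_drop hSUB h hs (by linarith : s ≤ s + L) hsL hT4 (fun r x => by
    simp only [hg]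
    split_ifs
    · exact (hj1 _).1
    · exact le_rfl) ?_
  · have e1 : ∀ x, g s x = jj (psiA ρ σ l A x) := by
      intro x
      simp only [hg]
      rw [if_pos ⟨by linarith, by linarith⟩]
      simp only [hG, hlt, hAt, sub_self, mul_zero, add_zero]
    have e2 : ∀ x, g (s + L) x = jj (psiA ρ σ (l + (V / 2 - σ) * L) (A + K * L) x) := by
      intro x
      simp only [hg]
      rw [if_pos ⟨by linarith, by linarith⟩]
      simp only [hG, hlt, hAt, add_sub_cancel_left]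
    simp only [e1, e2] at key
    exact key
  · intro r x hr1 hr2 hx
    have hrI : r ∈ Ioo (s - δ) (s + L + δ) := ⟨by linarith, by linarith⟩
    set E : ℝ := Real.exp (-σ * (x 0 - lt r)) with hE
    have hE0 : 0 < E := Real.exp_pos _
    set C : ℝ := Real.cos (2 * Real.pi * x 1 / ρ) with hC
    set S : ℝ := Real.sin (2 * Real.pi * x 1 / ρ) with hS
    set y : ℝ := psiA ρ σ (lt r) (At r) x with hy'
    have hyE : y = At r - E - 2 * (1 - C) - 4 * (x 0 / ρ) ^ 2 := rfl
    have egr : g r = fun x => jj (psiA ρ σ (lt r) (At r) x) := by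
      funext x
      simp only [hg]
      rw [if_pos hrI]
    -- time derivative
    have hdt : dt g r x = deriv jj y * (K - E * (σ * (V / 2 - σ))) := by
      unfold dt
      have hev : (fun τ => g τ x) =ᶠ[𝓝 r] fun τ => G τ x := by
        filter_upwards [Ioo_mem_nhds hrI.1 hrI.2] with τ hτ
        simp only [hg]
        rw [if_pos hτ]
      rw [hev.deriv_eq]
      have h0 : HasDerivAt (fun τ : ℝ => τ - s) 1 r := (hasDerivAt_id' r).sub_const s
      have hAd : HasDerivAt At (K * 1) r := (h0.const_mul K).const_add A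
      have hld : HasDerivAt lt ((V / 2 - σ) * 1) r := (h0.const_mul (V / 2 - σ)).const_add l
      have hEd1 : HasDerivAt (fun τ : ℝ => -σ * (x 0 - lt τ)) (-σ * (-((V / 2 - σ) * 1))) r :=
        (hld.const_sub (x 0)).const_mul (-σ)
      have hEd : HasDerivAt (fun τ : ℝ => Real.exp (-σ * (x 0 - lt τ)))
          (E * (-σ * (-((V / 2 - σ) * 1)))) r := hEd1.exp
      have hψd : HasDerivAt (fun τ : ℝ => psiA ρ σ (lt τ) (At τ) x)
          (K * 1 - E * (-σ * (-((V / 2 - σ) * 1)))) r :=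
        ((hAd.sub hEd).sub_const (2 * (1 - Real.cos (2 * Real.pi * x 1 / ρ)))).sub_const
          (4 * (x 0 / ρ) ^ 2)
      have hjy : HasDerivAt jj (deriv jj y) ((fun τ : ℝ => psiA ρ σ (lt τ) (At τ) x) r) :=
        (hjd y).hasDerivAt
      have h6 := HasDerivAt.comp (h₂ := jj) (h := fun τ : ℝ => psiA ρ σ (lt τ) (At τ) x) r hjy hψd
      have h7 : deriv (fun τ => G τ x) r
          = deriv jj y * (K * 1 - E * (-σ * (-((V / 2 - σ) * 1)))) := h6.deriv
      rw [h7]
      ring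
    -- space derivatives
    have hφ : ∀ z, HasDerivAt jj (deriv jj z) z := fun z => (hjd z).hasDerivAt
    have hφ2 : ∀ z, HasDerivAt (deriv jj) (deriv (deriv jj) z) z := fun z => (hjd1 z).hasDerivAt
    have hz2 : ∀ z : ℝ, HasDerivAt (fun z : ℝ => 4 * (z / ρ) ^ 2) (8 * z / ρ ^ 2) z := by
      intro z
      have h1 : HasDerivAt (fun z : ℝ => z / ρ) (1 / ρ) z := (hasDerivAt_id' z).div_const ρ
      have h2 : HasDerivAt (fun z : ℝ => 4 * (z / ρ) ^ 2) (4 * (2 * (z / ρ) ^ 1 * (1 / ρ))) z := by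
        have := (h1.pow 2).const_mul 4
        exact_mod_cast this
      have e : 8 * z / ρ ^ 2 = 4 * (2 * (z / ρ) ^ 1 * (1 / ρ)) := by
        field_simp
        ring
      rw [e]
      exact h2
    have hexp : ∀ z : ℝ, HasDerivAt (fun z : ℝ => Real.exp (-σ * (z - lt r)))
        (-σ * Real.exp (-σ * (z - lt r))) z := by
      intro z
      have h1 : HasDerivAt (fun z : ℝ => z - lt r) 1 z := (hasDerivAt_id' z).sub_const _
      have h2 : HasDerivAt (fun z : ℝ => -σ * (z - lt r)) (-σ * 1) z := h1.const_mul (-σ)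
      have h3 : HasDerivAt (fun z : ℝ => Real.exp (-σ * (z - lt r)))
          (Real.exp (-σ * (z - lt r)) * (-σ * 1)) z := h2.exp
      rw [mul_one, mul_comm] at h3
      exact h3
    have hp : ∀ z, HasDerivAt (fun z : ℝ => At r - Real.exp (-σ * (z - lt r)) - 4 * (z / ρ) ^ 2)
        (-(-σ * Real.exp (-σ * (z - lt r))) - 8 * z / ρ ^ 2) z := fun z =>
      ((hexp z).const_sub (At r)).sub (hz2 z)
    have hp2 : ∀ z, HasDerivAt
        (fun z : ℝ => -(-σ * Real.exp (-σ * (z - lt r))) - 8 * z / ρ ^ 2)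
        (-(-σ * (-σ * Real.exp (-σ * (z - lt r)))) - 8 * 1 / ρ ^ 2) z := fun z =>
      (((hexp z).const_mul (-σ)).neg).sub (((hasDerivAt_id' z).const_mul 8).div_const (ρ ^ 2))
    have hang : ∀ z : ℝ, HasDerivAt (fun z : ℝ => 2 * Real.pi * z / ρ) (2 * Real.pi * 1 / ρ) z :=
      fun z => ((hasDerivAt_id' z).const_mul (2 * Real.pi)).div_const ρ
    have hq : ∀ z, HasDerivAt (fun z : ℝ => -(2 * (1 - Real.cos (2 * Real.pi * z / ρ))))
        (-(2 * (-(-Real.sin (2 * Real.pi * z / ρ) * (2 * Real.pi * 1 / ρ))))) z := fun z =>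
      (((hang z).cos.const_sub 1).const_mul 2).neg
    have hq2 : ∀ z, HasDerivAt
        (fun z : ℝ => -(2 * (-(-Real.sin (2 * Real.pi * z / ρ) * (2 * Real.pi * 1 / ρ)))))
        (-(2 * (-(-(Real.cos (2 * Real.pi * z / ρ) * (2 * Real.pi * 1 / ρ))
          * (2 * Real.pi * 1 / ρ))))) z := fun z =>
      ((((hang z).sin.neg.mul_const (2 * Real.pi * 1 / ρ)).neg).const_mul 2).neg
    have eψ : ∀ z : Fin 2 → ℝ, psiA ρ σ (lt r) (At r) z
        = (fun z : ℝ => At r - Real.exp (-σ * (z - lt r)) - 4 * (z / ρ) ^ 2) (z 0)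
          + (fun z : ℝ => -(2 * (1 - Real.cos (2 * Real.pi * z / ρ)))) (z 1) := by
      intro z
      unfold psiA
      simp only
      ring
    have egr' : g r = fun y : Fin 2 → ℝ => jj
        ((fun z : ℝ => At r - Real.exp (-σ * (z - lt r)) - 4 * (z / ρ) ^ 2) (y 0)
          + (fun z : ℝ => -(2 * (1 - Real.cos (2 * Real.pi * z / ρ)))) (y 1)) := by
      rw [egr]
      funext z
      rw [eψ z]
    have hpd := pd_comp hφ hp hq x
    have hlap := lap_comp hφ hp hq hφ2 hp2 hq2 x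
    rw [← egr', ← eψ x, ← hy'] at hpd hlap
    rw [hdt, Fin.sum_univ_two, hpd.1, hpd.2, hlap]
    by_cases hc : y ≤ 0
    · rw [(hj0 y hc).2.1, (hj0 y hc).2.2]
      simp
    · push Not at hc
      have hx0 : 0 < x 0 := hx.1
      have hC1 : C ≤ 1 := Real.cos_le_one _
      have hAr : At r ≤ 1 := by
        simp only [hAt]
        have : K * (r - s) ≤ K * L := mul_le_mul_of_nonneg_left (by linarith) hK0.le
        linarith
      have hsq : 0 ≤ 4 * (x 0 / ρ) ^ 2 := by positivity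
      have hE1 : E < 1 := by linarith
      have hlx : lt r < x 0 := by
        by_contra hcon
        push Not at hcon
        have : 0 ≤ -σ * (x 0 - lt r) := by nlinarith
        have := Real.one_le_exp this
        linarith
      have hl2 : l ≤ lt r := by
        simp only [hlt]
        have : 0 ≤ (V / 2 - σ) * (r - s) := mul_nonneg (by linarith) (by linarith)
        linarith
      have hC2 : 1 / 2 < C := by linarith
      have hx2 : x 0 / ρ ≤ 1 / 2 := by
        by_contra hcon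
        push Not at hcon
        have : (1 / 2 : ℝ) ^ 2 < (x 0 / ρ) ^ 2 := by
          apply pow_lt_pow_left₀ hcon (by norm_num) (by norm_num)
        linarith
      have hx3 : x 0 ≤ ρ / 2 := by
        rw [div_le_iff₀ hρ0] at hx2
        linarith
      obtain ⟨hb0, hb1⟩ := hb r x hr1 hr2 hx (by linarith) hx3
      rw [hb0, hb1]
      have hd1 := (hj1 y).2.1
      have hd2 := (hj1 y).2.2
      -- the operator on psi
      have hLψ : 0 ≤ (K - E * (σ * (V / 2 - σ))) + V * C * (σ * E - 8 * x 0 / ρ ^ 2)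
          + (-(σ ^ 2 * E) - 8 / ρ ^ 2 - 2 * (2 * Real.pi / ρ) ^ 2 * C) := by
        have e1 : (K - E * (σ * (V / 2 - σ))) + V * C * (σ * E - 8 * x 0 / ρ ^ 2)
          + (-(σ ^ 2 * E) - 8 / ρ ^ 2 - 2 * (2 * Real.pi / ρ) ^ 2 * C)
          = σ * E * V * (C - 1 / 2) + 2 * (2 * Real.pi / ρ) ^ 2 * (1 - C)
            + (4 * V / ρ - V * C * (8 * x 0 / ρ ^ 2)) := by
          rw [hK]
          ring
        rw [e1]
        have h1 : 0 ≤ σ * E * V * (C - 1 / 2) :=
          mul_nonneg (by positivity) (by linarith)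
        have h2 : 0 ≤ 2 * (2 * Real.pi / ρ) ^ 2 * (1 - C) :=
          mul_nonneg (by positivity) (by linarith)
        have h3 : V * C * (8 * x 0 / ρ ^ 2) ≤ 4 * V / ρ := by
          have h4 : 8 * x 0 / ρ ^ 2 ≤ 4 / ρ := by
            rw [div_le_div_iff₀ (by positivity) hρ0]
            nlinarith
          have h5 : 0 ≤ 8 * x 0 / ρ ^ 2 := by positivity
          calc V * C * (8 * x 0 / ρ ^ 2) ≤ V * 1 * (4 / ρ) := by
                apply mul_le_mul _ h4 h5 (by positivity)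
                exact mul_le_mul_of_nonneg_left hC1 hV.le
            _ = 4 * V / ρ := by ring
        linarith
      have hfin : 0 ≤ deriv jj y * ((K - E * (σ * (V / 2 - σ)))
          + V * C * (σ * E - 8 * x 0 / ρ ^ 2)
          + (-(σ ^ 2 * E) - 8 / ρ ^ 2 - 2 * (2 * Real.pi / ρ) ^ 2 * C))
          + deriv (deriv jj) y * ((σ * E - 8 * x 0 / ρ ^ 2) ^ 2
            + (-(2 * (-(-S * (2 * Real.pi * 1 / ρ))))) ^ 2) := by
        have h1 := mul_nonneg hd1 hLψ
        have h2 : 0 ≤ deriv (deriv jj) y * ((σ * E - 8 * x 0 / ρ ^ 2) ^ 2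
            + (-(2 * (-(-S * (2 * Real.pi * 1 / ρ))))) ^ 2) := mul_nonneg hd2 (by positivity)
        linarith
      convert hfin using 1
      ring

/-- Part PST. -/
theorem main (hSUB : S_SUB) (hGP : S_GP) : S_PST := by
  intro T b f u v h n s L σ l A y0 w V hn hs hL hsL hσ hy hw hV hb1 hb2
  exact ⟨fun hσV hl _ hA1 => part1 hSUB hGP h hn rfl hs hL hsL hσ hy hV hb2 hσV hl hA1,
    fun hl hlw => part2 hSUB hGP h hs hL hsL hy hw hV hb1 hl hlw⟩

end Pool.Agent.Helper45.ND.PST
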